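import Mathlib
import Pool.Agent.H892.VS.Stm

/-! Elements of the secant variety are supported on the monomials of degree `v`. -/

set_option autoImplicit false

open MvPolynomial

namespace Pool.Agent.H234.VS

open Pool.Agent.H892.VS

theorem t_SUPP : S_SUPP := by
  intro n s r T v F hF m hm
  have h := hF (X m) (by
    rintro G ⟨x, c, -, rfl⟩
    rw [eval_X, Finset.sum_apply]
    refine Finset.sum_eq_zero fun i _ => ?_
    rw [Pi.smul_apply]
    unfold Cox.ev
    rw [if_neg hm, smul_zero])
  rwa [eval_X] at h

end Pool.Agent.H234.VS
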